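import Mathlib
import Pool.Agent.Helper74.OKA.St.C5
import Pool.Agent.Helper74.OKA.St.C6
import Pool.Agent.Helper74.OKA.St.C7

set_option autoImplicit false

open Set Metric Topology Pool.Agent.Helper74.OKA
open scoped Manifold ContDiff

namespace Pool.Agent.Helper81.OKA

universe u

namespace C8

section Exp

variable {𝔸 : Type} [NormedRing 𝔸] [NormedAlgebra ℂ 𝔸] [CompleteSpace 𝔸]

lemma isUnit_exp (x : 𝔸) : IsUnit (NormedSpace.exp x) := by
  let _ : NormedAlgebra ℚ 𝔸 := NormedAlgebra.restrictScalars ℚ ℂ 𝔸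
  exact NormedSpace.isUnit_exp x

lemma differentiable_exp : Differentiable ℂ (NormedSpace.exp : 𝔸 → 𝔸) := fun x =>
  (NormedSpace.exp_analytic (𝕂 := ℂ) x).differentiableAt

lemma exists_log : ∃ (O : Set 𝔸) (L : 𝔸 → 𝔸), IsOpen O ∧ (1 : 𝔸) ∈ O ∧ DifferentiableOn ℂ L O ∧
    ∀ x ∈ O, NormedSpace.exp (L x) = x := by
  have hf : ContDiffAt ℂ 1 (NormedSpace.exp : 𝔸 → 𝔸) 0 :=
    (NormedSpace.exp_analytic (𝕂 := ℂ) (0 : 𝔸)).contDiffAt
  have hf' : HasFDerivAt (NormedSpace.exp : 𝔸 → 𝔸)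
      ((ContinuousLinearEquiv.refl ℂ 𝔸 : 𝔸 ≃L[ℂ] 𝔸) : 𝔸 →L[ℂ] 𝔸) 0 :=
    hasFDerivAt_exp_zero (𝕂 := ℂ)
  have h1 : ContDiffAt ℂ 1 (hf.localInverse hf' one_ne_zero) 1 := by
    have := hf.to_localInverse hf' one_ne_zero
    rwa [NormedSpace.exp_zero] at this
  have h2 : ∀ᶠ y in 𝓝 (1 : 𝔸), NormedSpace.exp (hf.localInverse hf' one_ne_zero y) = y := by
    have := (hf.hasStrictFDerivAt' hf' one_ne_zero).eventually_right_inverse
    rwa [NormedSpace.exp_zero] at this
  have h3 := h1.eventually (by simp)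
  obtain ⟨O, hO, hO1, hO2⟩ := _root_.eventually_nhds_iff.1 (h2.and h3)
  refine ⟨O, hf.localInverse hf' one_ne_zero, hO1, hO2, fun x hx => ?_, fun x hx => (hO x hx).1⟩
  exact ((hO x hx).2.differentiableAt (by simp)).differentiableWithinAt

/-- restrictions of entire maps with invertible values -/
def EU {E : Type} [NormedAddCommGroup E] [NormedSpace ℂ E] (K : Set E) : Submonoid C(K, 𝔸) where
  carrier := {φ | ∃ h : E → 𝔸, Differentiable ℂ h ∧ (∀ z, IsUnit (h z)) ∧ ∀ z : K, φ z = h z}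
  mul_mem' := by
    rintro φ ψ ⟨h, hh, hu, he⟩ ⟨k, hk, hv, hf⟩
    exact ⟨fun z => h z * k z, hh.mul hk, fun z => (hu z).mul (hv z), fun z => by
      rw [ContinuousMap.mul_apply, he, hf]⟩
  one_mem' := ⟨fun _ => 1, differentiable_const _, fun _ => isUnit_one, fun _ => rfl⟩

lemma mem_closure_of_exp {E : Type} [NormedAddCommGroup E] [NormedSpace ℂ E] (K : Set E)
    (hK : IsCompact K) (hA : Approx 𝔸 𝔸 K) (U : Set E) (hU : IsOpen U) (hKU : K ⊆ U) (v : E → 𝔸)
    (hv : DifferentiableOn ℂ v U) (φ : C(K, 𝔸)) (hφ : ∀ z : K, φ z = NormedSpace.exp (v z)) :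
    φ ∈ closure (EU (𝔸 := 𝔸) K : Set C(K, 𝔸)) := by
  have : CompactSpace K := isCompact_iff_compactSpace.1 hK
  let ψ : C(K, 𝔸) := ⟨fun z => v z, (hv.continuousOn.mono hKU).domRestrict⟩
  let e : C(𝔸, 𝔸) := ⟨NormedSpace.exp, (differentiable_exp (𝔸 := 𝔸)).continuous⟩
  have h1 : φ = e.comp ψ := by ext z; exact hφ z
  let s : Set C(K, 𝔸) := {χ | ∃ w : E → 𝔸, Differentiable ℂ w ∧ ∀ z : K, χ z = w z}
  have h2 : ψ ∈ closure s := by
    rw [Metric.mem_closure_iff]
    intro ε hε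
    obtain ⟨W, hW, hKW, hWU, hg⟩ := hA U hU hKU
    obtain ⟨g, hg1, hg2⟩ := hg v (mdifferentiableOn_iff_differentiableOn.2 hv) ε hε
    have hg1' : Differentiable ℂ g := mdifferentiable_iff_differentiable.1 hg1
    refine ⟨⟨fun z => g z, hg1'.continuous.comp continuous_subtype_val⟩, ⟨g, hg1', fun z => rfl⟩, ?_⟩
    rw [ContinuousMap.dist_lt_iff hε]
    intro z
    rw [dist_comm]
    exact hg2 z (hKW z.2)
  rw [h1]
  refine map_mem_closure (f := fun χ : C(K, 𝔸) => e.comp χ) (ContinuousMap.continuous_postcomp e)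
    h2 ?_
  rintro χ ⟨w, hw, hw'⟩
  exact ⟨fun z => NormedSpace.exp (w z), differentiable_exp.comp hw, fun z => isUnit_exp _,
    fun z => by simp [e, hw']⟩

theorem runge {E : Type} [NormedAddCommGroup E] [NormedSpace ℂ E] [FiniteDimensional ℂ E]
    (hAA : ∀ K : Set E, IsCompact K → Convex ℝ K → Approx 𝔸 𝔸 K)
    (S : Set E) (hS : IsCompact S) (hSc : Convex ℝ S) (U : Set E) (hU : IsOpen U)
    (hSU : S ⊆ U) (g : E → 𝔸) (hg : DifferentiableOn ℂ g U)
    (hu : ∀ z ∈ U, IsUnit (g z)) (ε : ℝ) (hε : 0 < ε) :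
    ∃ h : E → 𝔸, Differentiable ℂ h ∧ (∀ z, IsUnit (h z)) ∧
      ∃ W : Set E, IsOpen W ∧ S ⊆ W ∧ ∀ z ∈ W, ‖h z - g z‖ < ε := by
  have : ProperSpace E := FiniteDimensional.proper ℂ E
  rcases S.eq_empty_or_nonempty with rfl | ⟨p, hp⟩
  · exact ⟨fun _ => 1, differentiable_const _, fun _ => isUnit_one, ∅, isOpen_empty, subset_rfl,
      fun z hz => absurd hz (notMem_empty z)⟩
  obtain ⟨δ, hδ, hδU⟩ := hS.exists_thickening_subset_open hU hSU
  set K := cthickening (δ / 2) S with hKdef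
  set U₀ := thickening δ S with hU₀def
  have hK : IsCompact K := hS.cthickening
  have hKc : Convex ℝ K := hSc.cthickening _
  have hU₀ : IsOpen U₀ := isOpen_thickening
  have hU₀c : Convex ℝ U₀ := hSc.thickening _
  have hKU₀ : K ⊆ U₀ := cthickening_subset_thickening' hδ (by linarith) S
  have hpK : p ∈ K := self_subset_cthickening S hp
  have : CompactSpace K := isCompact_iff_compactSpace.1 hK
  have hA : Approx 𝔸 𝔸 K := hAA K hK hKc
  -- the homotopy
  have hmem : ∀ (a : unitInterval) (z : E), z ∈ U₀ → p + (a : ℝ) • (z - p) ∈ U₀ := by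
    intro a z hz
    exact hU₀c.add_smul_sub_mem (hKU₀ hpK) hz a.2
  have hga : ∀ a : unitInterval, DifferentiableOn ℂ (fun z => g (p + (a : ℝ) • (z - p))) U₀ := by
    intro a
    refine (hg.mono hδU).comp ?_ (fun z hz => hmem a z hz)
    have : (fun z : E => p + (a : ℝ) • (z - p)) = fun z : E => p + ((a : ℝ) : ℂ) • (z - p) := by
      ext z; simp
    rw [this]
    exact (((differentiable_id.sub_const p).const_smul _).const_add p).differentiableOn
  have hua : ∀ (a : unitInterval), ∀ z ∈ U₀, IsUnit (g (p + (a : ℝ) • (z - p))) :=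
    fun a z hz => hu _ (hδU (hmem a z hz))
  have hcont : Continuous (fun x : unitInterval × K => g (p + (x.1 : ℝ) • ((x.2 : E) - p))) := by
    have h1 : Continuous (fun x : unitInterval × K => p + (x.1 : ℝ) • ((x.2 : E) - p)) := by
      fun_prop
    exact (hg.continuousOn.mono hδU).comp_continuous h1 (fun x => hmem x.1 _ (hKU₀ x.2.2))
  have hcont' : Continuous (fun x : unitInterval × K =>
      Ring.inverse (g (p + (x.1 : ℝ) • ((x.2 : E) - p)))) := by
    rw [continuous_iff_continuousAt] at hcont ⊢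
    intro x
    obtain ⟨u, hu'⟩ := hua x.1 _ (hKU₀ x.2.2)
    have := NormedRing.inverse_continuousAt u
    rw [hu'] at this
    exact ContinuousAt.comp (f := fun x : unitInterval × K => g (p + (x.1 : ℝ) • ((x.2 : E) - p)))
      (g := Ring.inverse) this (hcont x)
  let G : C(unitInterval, C(K, 𝔸)) := ContinuousMap.curry ⟨_, hcont⟩
  let G' : C(unitInterval, C(K, 𝔸)) := ContinuousMap.curry ⟨_, hcont'⟩
  have hG : ∀ a z, G a z = g (p + (a : ℝ) • ((z : E) - p)) := fun a z => rfl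
  have hG' : ∀ a z, G' a z = Ring.inverse (g (p + (a : ℝ) • ((z : E) - p))) := fun a z => rfl
  have hGG' : ∀ a, G a * G' a = 1 := by
    intro a
    refine ContinuousMap.ext fun z => ?_
    rw [ContinuousMap.mul_apply, hG, hG', ContinuousMap.one_apply]
    exact Ring.mul_inverse_cancel _ (hua a _ (hKU₀ z.2))
  have hG'G : ∀ a, G' a * G a = 1 := by
    intro a
    refine ContinuousMap.ext fun z => ?_
    rw [ContinuousMap.mul_apply, hG, hG', ContinuousMap.one_apply]
    exact Ring.inverse_mul_cancel _ (hua a _ (hKU₀ z.2))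
  obtain ⟨O, L, hO, hO1, hL, hexp⟩ := exists_log (𝔸 := 𝔸)
  let M : Submonoid C(K, 𝔸) := (EU (𝔸 := 𝔸) K).topologicalClosure
  have hclose : ∀ a b : unitInterval, (∀ z, (G' a * G b) z ∈ O) → G' a * G b ∈ M := by
    intro a b hab
    have hd : DifferentiableOn ℂ (fun z => Ring.inverse (g (p + (a : ℝ) • (z - p))) *
        g (p + (b : ℝ) • (z - p))) U₀ := ((hga a).inverse (hua a)).mul (hga b)
    refine mem_closure_of_exp K hK hA (U₀ ∩ (fun z => Ring.inverse (g (p + (a : ℝ) • (z - p))) *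
        g (p + (b : ℝ) • (z - p))) ⁻¹' O) (hd.continuousOn.isOpen_inter_preimage hU₀ hO)
        (fun z hz => ⟨hKU₀ hz, hab ⟨z, hz⟩⟩)
        (fun z => L (Ring.inverse (g (p + (a : ℝ) • (z - p))) * g (p + (b : ℝ) • (z - p))))
        (hL.comp (hd.mono inter_subset_left) (fun z hz => hz.2)) _ (fun z => ?_)
    exact (hexp _ (hab z)).symm
  have hloc : ∀ a : unitInterval, ∀ᶠ b in 𝓝 a, G' a * G b ∈ M ∧ G' b * G a ∈ M := by
    intro a
    have hopen : IsOpen {χ : C(K, 𝔸) | MapsTo χ univ O} :=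
      ContinuousMap.isOpen_setOfPred_mapsTo isCompact_univ hO
    have h1 : ∀ᶠ b in 𝓝 a, MapsTo (G' a * G b) univ O := by
      have hc : ContinuousAt (fun b => G' a * G b) a :=
        (continuous_const.mul G.continuous).continuousAt
      refine hc.eventually (hopen.mem_nhds ?_)
      show MapsTo (G' a * G a) univ O
      rw [hG'G]
      exact fun z _ => hO1
    have h2 : ∀ᶠ b in 𝓝 a, MapsTo (G' b * G a) univ O := by
      have hc : ContinuousAt (fun b => G' b * G a) a :=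
        (G'.continuous.mul continuous_const).continuousAt
      refine hc.eventually (hopen.mem_nhds ?_)
      show MapsTo (G' a * G a) univ O
      rw [hG'G]
      exact fun z _ => hO1
    filter_upwards [h1, h2] with b hb1 hb2
    exact ⟨hclose a b fun z => hb1 (mem_univ z), hclose b a fun z => hb2 (mem_univ z)⟩
  have hall : G' 0 * G 1 ∈ M := by
    refine PreconnectedSpace.induction₂' (fun a b => G' a * G b ∈ M) hloc ⟨?_⟩ 0 1
    intro a b c hab hbc
    have : G' a * G c = (G' a * G b) * (G' b * G c) := by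
      rw [mul_assoc, ← mul_assoc (G b), hGG', one_mul]
    show G' a * G c ∈ M
    rw [this]
    exact M.mul_mem hab hbc
  have h0 : G 0 ∈ M := by
    refine subset_closure ?_
    refine ⟨fun _ => g p, differentiable_const _, fun _ => hu p (hSU hp), fun z => ?_⟩
    rw [hG]
    simp
  have h1 : G 1 ∈ M := by
    have : G 1 = G 0 * (G' 0 * G 1) := by rw [← mul_assoc, hGG', one_mul]
    rw [this]
    exact M.mul_mem h0 hall
  have h1' : G 1 ∈ closure (EU (𝔸 := 𝔸) K : Set C(K, 𝔸)) := h1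
  rw [Metric.mem_closure_iff] at h1'
  obtain ⟨χ, ⟨h, hh, hhu, hχ⟩, hdist⟩ := h1' ε hε
  refine ⟨h, hh, hhu, thickening (δ / 2) S, isOpen_thickening, self_subset_thickening (by linarith) S,
    fun z hz => ?_⟩
  have hzK : z ∈ K := thickening_subset_cthickening _ _ hz
  rw [ContinuousMap.dist_lt_iff hε] at hdist
  have := hdist ⟨z, hzK⟩
  rw [hχ, hG, dist_comm, dist_eq_norm] at this
  simpa using this

end Exp

end C8

/-- C8 (uses C5, C6, C7 for the vector space `F →L[ℂ] F`) -/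
theorem gl_runge (F : Type) [NormedAddCommGroup F] [NormedSpace ℂ F] [FiniteDimensional ℂ F]
    {E : Type} [NormedAddCommGroup E] [NormedSpace ℂ E] [FiniteDimensional ℂ E]
    (S : Set E) (hS : IsCompact S) (hSc : Convex ℝ S) (U : Set E) (hU : IsOpen U)
    (hSU : S ⊆ U) (g : E → (F →L[ℂ] F)) (hg : DifferentiableOn ℂ g U)
    (hu : ∀ z ∈ U, IsUnit (g z)) (ε : ℝ) (hε : 0 < ε) :
    ∃ h : E → (F →L[ℂ] F), Differentiable ℂ h ∧ (∀ z, IsUnit (h z)) ∧
      ∃ W : Set E, IsOpen W ∧ S ⊆ W ∧ ∀ z ∈ W, ‖h z - g z‖ < ε :=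
  C8.runge (fun _ hK hKc => approx_convex (F →L[ℂ] F) (bap_self _) (hasSprays_self _) _ hK hKc)
    S hS hSc U hU hSU g hg hu ε hε

end Pool.Agent.Helper81.OKA
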