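import Mathlib
import Pool.Agent.Helper74.OKA.St.A01
import Pool.Agent.Helper74.OKA.St.A03
import Pool.Agent.Helper74.OKA.St.A14
import Pool.Agent.Helper74.OKA.St.C2
import Pool.Agent.Helper74.OKA.St.C3
import Pool.Agent.Helper74.OKA.St.C8

set_option autoImplicit false

open Set Metric Topology Pool.Agent.Helper74.OKA
open scoped Manifold ContDiff

namespace Pool.Agent.Helper81.OKA

universe u

namespace C9

variable {F : Type} [NormedAddCommGroup F] [NormedSpace ℂ F] [FiniteDimensional ℂ F]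
  {Y : Type u} [MetricSpace Y] [ChartedSpace F Y] [IsManifold 𝓘(ℂ, F) 1 Y]
  {E : Type} [NormedAddCommGroup E] [NormedSpace ℂ E] [FiniteDimensional ℂ E]

omit [FiniteDimensional ℂ F] [IsManifold 𝓘(ℂ, F) 1 Y] [FiniteDimensional ℂ E] in
lemma etaleAt_congr {s s' : E × F → Y} {x₀ : E × F} (h : EtaleAt F s x₀) (O₁ : Set (E × F))
    (hO₁ : IsOpen O₁) (hx : x₀ ∈ O₁) (he : ∀ x ∈ O₁, s' x = s x) : EtaleAt F s' x₀ := by
  obtain ⟨O, N, Θ, hO, hxO, hN, hΘ, h1, h2, h3⟩ := h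
  have hc : ContinuousOn (fun x : E × Y => (x.1, Θ x)) N := continuousOn_fst.prodMk hΘ
  refine ⟨O ∩ O₁, N ∩ (fun x : E × Y => (x.1, Θ x)) ⁻¹' O₁, Θ, hO.inter hO₁, ⟨hxO, hx⟩,
    hc.isOpen_inter_preimage hN hO₁, hΘ.mono inter_subset_left, ?_, ?_, ?_⟩
  · rintro z t ⟨hzt, hzt'⟩
    obtain ⟨ha, hb⟩ := h1 z t hzt
    rw [he _ hzt']
    refine ⟨⟨ha, ?_⟩, hb⟩
    show (z, Θ (z, s (z, t))) ∈ O₁
    rw [hb]
    exact hzt'
  · rintro z y ⟨hzy, hzy'⟩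
    obtain ⟨ha, hb⟩ := h2 z y hzy
    refine ⟨⟨ha, hzy'⟩, ?_⟩
    rw [he _ hzy', hb]
  · intro Z _ _ _ D q g hD hq hg hmem
    exact h3 Z D q g hD hq hg (fun x hx => (hmem x hx).1)

/-- transition between two sprays with the same core -/
lemma transition {f : E → Y} {U₁ U₂ : Set E} {r₁ r₂ : ℝ} {s₁ s₂ : E × F → Y} {Θ₂ : E × Y → F}
    {N₂ : Set (E × Y)} (hU₁ : IsOpen U₁) (hU₂ : IsOpen U₂) (hr₁ : 0 < r₁) (hr₂ : 0 < r₂)
    (hs₁ : MDifferentiableOn 𝓘(ℂ, E × F) 𝓘(ℂ, F) s₁ (U₁ ×ˢ ball 0 r₁))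
    (hc₁ : ∀ z ∈ U₁, s₁ (z, 0) = f z) (hc₂ : ∀ z ∈ U₂, s₂ (z, 0) = f z)
    (hN₂ : IsOpen N₂)
    (h1 : ∀ z ∈ U₂, ∀ t ∈ ball (0 : F) r₂, (z, s₂ (z, t)) ∈ N₂ ∧ Θ₂ (z, s₂ (z, t)) = t)
    (h2 : ∀ z y, (z, y) ∈ N₂ → z ∈ U₂ ∧ Θ₂ (z, y) ∈ ball (0 : F) r₂ ∧ s₂ (z, Θ₂ (z, y)) = y)
    (h3 : ∀ (Z : Type) [NormedAddCommGroup Z] [NormedSpace ℂ Z] [FiniteDimensional ℂ Z] (D : Set Z)
      (q : Z → E) (g : Z → Y), IsOpen D → DifferentiableOn ℂ q D →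
      MDifferentiableOn 𝓘(ℂ, Z) 𝓘(ℂ, F) g D → (∀ x ∈ D, (q x, g x) ∈ N₂) →
      DifferentiableOn ℂ (fun x => Θ₂ (q x, g x)) D) :
    ∃ D : Set (E × F), D = {x | x ∈ U₁ ×ˢ ball (0 : F) r₁ ∧ (x.1, s₁ x) ∈ N₂} ∧ IsOpen D ∧
      DifferentiableOn ℂ (fun x : E × F => Θ₂ (x.1, s₁ x)) D ∧
      ∀ z ∈ U₁ ∩ U₂, (z, (0 : F)) ∈ D ∧ Θ₂ (z, s₁ (z, 0)) = 0 := by
  have hcont : ContinuousOn (fun x : E × F => (x.1, s₁ x)) (U₁ ×ˢ ball 0 r₁) :=
    continuousOn_fst.prodMk hs₁.continuousOn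
  have hopen : IsOpen (U₁ ×ˢ ball (0 : F) r₁) := hU₁.prod isOpen_ball
  have hD : IsOpen {x : E × F | x ∈ U₁ ×ˢ ball (0 : F) r₁ ∧ (x.1, s₁ x) ∈ N₂} :=
    hcont.isOpen_inter_preimage hopen hN₂
  refine ⟨_, rfl, hD, ?_, ?_⟩
  · refine h3 (E × F) _ (fun x => x.1) s₁ hD differentiable_fst.differentiableOn
      (hs₁.mono fun x hx => hx.1) (fun x hx => hx.2)
  · rintro z ⟨hz1, hz2⟩
    have h0 : (0 : F) ∈ ball (0 : F) r₂ := mem_ball_self hr₂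
    have := h1 z hz2 0 h0
    rw [hc₂ z hz2, ← hc₁ z hz1] at this
    exact ⟨⟨⟨hz1, mem_ball_self hr₁⟩, this.1⟩, this.2⟩

omit [FiniteDimensional ℂ F] in
lemma bijective_of_close [CompleteSpace F] (L : F →L[ℂ] F) (hL : ‖L - 1‖ < 1) :
    Function.Bijective L := by
  rw [← ContinuousLinearMap.isUnit_iff_bijective]
  have : L = 1 - (1 - L) := by abel
  rw [this]
  refine isUnit_one_sub_of_norm_lt_one ?_
  rwa [norm_sub_rev]

omit [FiniteDimensional ℂ E] [FiniteDimensional ℂ F] in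
lemma hasFDerivAt_slice {κ : E × F → F} {D : Set (E × F)} (hD : IsOpen D)
    (hκ : DifferentiableOn ℂ κ D) {z : E} {t : F} (h : (z, t) ∈ D) :
    HasFDerivAt (fun t : F => κ (z, t)) ((fderiv ℂ κ (z, t)).comp (ContinuousLinearMap.inr ℂ E F))
      t := by
  have h1 : HasFDerivAt κ (fderiv ℂ κ (z, t)) (z, t) :=
    ((hκ _ h).differentiableAt (hD.mem_nhds h)).hasFDerivAt
  exact h1.comp t (hasFDerivAt_prodMk_right z t)

omit [FiniteDimensional ℂ E] in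
lemma eta_small {κ : E × F → F} {D : Set (E × F)} (hD : IsOpen D)
    (hκ : DifferentiableOn ℂ κ D) (hκ' : ContinuousOn (fderiv ℂ κ) D) {S : Set E}
    (hS : IsCompact S)
    (h0 : ∀ z ∈ S, (z, (0 : F)) ∈ D ∧ κ (z, 0) = 0) {h : E → F →L[ℂ] F} (hh : Continuous h)
    {δ : ℝ} (hδ : 0 < δ)
    (hclose : ∀ z ∈ S, ‖h z * ((fderiv ℂ κ (z, 0)).comp (ContinuousLinearMap.inr ℂ E F)) - 1‖ < δ) :
    ∃ r₀ > 0, ∀ r : ℝ, 0 < r → r ≤ r₀ → ∀ z ∈ S, ∀ t ∈ ball (0 : F) 1, (z, (r : ℂ) • t) ∈ D ∧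
      ‖(r : ℂ)⁻¹ • h z (κ (z, (r : ℂ) • t)) - t‖ ≤ δ := by
  let G : E × F → F →L[ℂ] F := fun x => h x.1 * ((fderiv ℂ κ x).comp (ContinuousLinearMap.inr ℂ E F))
  have hG : ContinuousOn (fun x => ‖G x - 1‖) D := by
    have h1 : ContinuousOn (fun x : E × F => h x.1) D := (hh.comp continuous_fst).continuousOn
    have h2 : ContinuousOn (fun x : E × F => (fderiv ℂ κ x).comp (ContinuousLinearMap.inr ℂ E F)) D :=
      hκ'.clm_comp continuousOn_const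
    exact ((h1.mul h2).sub continuousOn_const).norm
  have hD₁ : IsOpen (D ∩ (fun x => ‖G x - 1‖) ⁻¹' Iio δ) := hG.isOpen_inter_preimage hD isOpen_Iio
  have hsub : S ×ˢ ({0} : Set F) ⊆ D ∩ (fun x => ‖G x - 1‖) ⁻¹' Iio δ := by
    rintro ⟨z, t⟩ ⟨hz, ht⟩
    obtain rfl : t = 0 := ht
    exact ⟨(h0 z hz).1, hclose z hz⟩
  obtain ⟨u, v, hu, hv, hSu, h0v, huv⟩ := generalized_tube_lemma hS isCompact_singleton hD₁ hsub
  obtain ⟨r₀, hr₀, hball⟩ := Metric.isOpen_iff.1 hv 0 (h0v rfl)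
  refine ⟨r₀, hr₀, fun r hr hrr z hz t ht => ?_⟩
  have hmem : ∀ t ∈ ball (0 : F) 1, (z, (r : ℂ) • t) ∈ D ∩ (fun x => ‖G x - 1‖) ⁻¹' Iio δ := by
    intro t ht
    refine huv ⟨hSu hz, hball ?_⟩
    rw [mem_ball_zero_iff] at ht ⊢
    rw [norm_smul, Complex.norm_real, Real.norm_of_nonneg hr.le]
    nlinarith [norm_nonneg t]
  refine ⟨(hmem t ht).1, ?_⟩
  have hr0 : (r : ℂ) ≠ 0 := Complex.ofReal_ne_zero.2 hr.ne'
  have hder : ∀ t ∈ ball (0 : F) 1, HasFDerivWithinAt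
      (fun t : F => (r : ℂ)⁻¹ • h z (κ (z, (r : ℂ) • t)) - t) (G (z, (r : ℂ) • t) - 1)
      (ball (0 : F) 1) t := by
    intro t ht
    have h1 := hasFDerivAt_slice hD hκ (hmem t ht).1
    have h2 : HasFDerivAt (fun t : F => (r : ℂ) • t) ((r : ℂ) • ContinuousLinearMap.id ℂ F) t :=
      (hasFDerivAt_id t).const_smul _
    have h3 := (h1.comp t h2)
    have h4 := ((h z).hasFDerivAt.comp t h3).const_smul ((r : ℂ)⁻¹)
    have h5 := (h4.sub (hasFDerivAt_id t)).hasFDerivWithinAt (s := ball (0 : F) 1)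
    refine h5.congr_fderiv ?_
    ext x
    simp [-Complex.coe_smul, G, smul_smul, hr0]
  have hle := Convex.norm_image_sub_le_of_norm_hasFDerivWithin_le (C := δ) hder
    (fun t ht => (hmem t ht).2.le) (convex_ball (0 : F) 1) (mem_ball_self one_pos) ht
  have e0 : (r : ℂ)⁻¹ • h z (κ (z, (r : ℂ) • (0 : F))) - 0 = 0 := by
    rw [smul_zero, (h0 z hz).2]; simp
  rw [e0, sub_zero, sub_zero] at hle
  rw [mem_ball_zero_iff] at ht
  nlinarith [norm_nonneg t]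

omit [FiniteDimensional ℂ E] [FiniteDimensional ℂ F] in
lemma slice_comp {κ κ' : E × F → F} {D D' : Set (E × F)} (hD : IsOpen D) (hD' : IsOpen D')
    (hκ : DifferentiableOn ℂ κ D) (hκ' : DifferentiableOn ℂ κ' D') {z : E} (h : (z, (0 : F)) ∈ D)
    (h' : (z, (0 : F)) ∈ D') (h0 : κ (z, 0) = 0) (hcomp : ∀ t, (z, t) ∈ D → κ' (z, κ (z, t)) = t) :
    ((fderiv ℂ κ' (z, 0)).comp (ContinuousLinearMap.inr ℂ E F)) *
      ((fderiv ℂ κ (z, 0)).comp (ContinuousLinearMap.inr ℂ E F)) = 1 := by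
  have h1 := hasFDerivAt_slice hD hκ h
  have h2 := hasFDerivAt_slice hD' hκ' h'
  have h2' : HasFDerivAt (fun t : F => κ' (z, t)) ((fderiv ℂ κ' (z, 0)).comp
      (ContinuousLinearMap.inr ℂ E F)) ((fun t : F => κ (z, t)) 0) := by
    show HasFDerivAt _ _ (κ (z, 0))
    rw [h0]
    exact h2
  have h3 := h2'.comp 0 h1
  have hev : ∀ᶠ t in 𝓝 (0 : F), ((fun t : F => κ' (z, t)) ∘ fun t => κ (z, t)) t = id t := by
    have hc : ContinuousAt (fun t : F => (z, t)) 0 := by fun_prop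
    filter_upwards [hc.eventually (hD.mem_nhds h)] with t ht
    exact hcomp t ht
  have h4 : HasFDerivAt ((fun t : F => κ' (z, t)) ∘ fun t => κ (z, t))
      (ContinuousLinearMap.id ℂ F) 0 := (hasFDerivAt_id (0 : F)).congr_of_eventuallyEq hev
  exact h3.unique h4

/-- derivative of a small perturbation of the identity -/
lemma bij_fderiv {a : E × F → F} {A : Set E} (hA : IsOpen A)
    (ha : HB A (ball (0 : F) (1 / 2)) (1 / 8) a) {z : E} (hz : z ∈ A) (L : F →L[ℂ] F)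
    (hL : IsUnit L) (c : ℂ) (hc : c ≠ 0) :
    Function.Bijective (fderiv ℂ (fun t : F => c • L (t + a (z, t))) 0) := by
  have hop : IsOpen (A ×ˢ ball (0 : F) (1 / 2)) := hA.prod isOpen_ball
  have hmem : (z, (0 : F)) ∈ A ×ˢ ball (0 : F) (1 / 2) := ⟨hz, mem_ball_self (by norm_num)⟩
  have h1 := hasFDerivAt_slice hop ha.1 hmem
  set B := (fderiv ℂ a (z, 0)).comp (ContinuousLinearMap.inr ℂ E F) with hB
  have h2 : ‖B‖ ≤ (1 / 8) / (1 / 2) := by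
    have h3 : DifferentiableOn ℂ (fun t : F => a (z, t)) (ball (0 : F) (1 / 2)) :=
      ha.1.comp ((differentiable_const z).prodMk differentiable_id).differentiableOn
        (fun t ht => ⟨hz, ht⟩)
    have h4 := norm_fderiv_le (z := (0 : F)) (r := 1 / 2) (M := 1 / 8) (by norm_num) h3
      (fun t ht => ha.2 _ ⟨hz, ht⟩)
    rwa [h1.fderiv] at h4
  have h5 : HasFDerivAt (fun t : F => c • L (t + a (z, t)))
      (c • L.comp (ContinuousLinearMap.id ℂ F + B)) 0 :=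
    (L.hasFDerivAt.comp (0 : F) ((hasFDerivAt_id (0 : F)).add h1)).const_smul c
  rw [h5.fderiv, ← ContinuousLinearMap.isUnit_iff_bijective]
  have h6 : IsUnit (ContinuousLinearMap.id ℂ F + B) := by
    rw [ContinuousLinearMap.isUnit_iff_bijective]
    refine bijective_of_close _ ?_
    have : (ContinuousLinearMap.id ℂ F + B) - 1 = B := by
      show (1 + B) - 1 = B
      abel
    rw [this]
    linarith
  have h7 : c • L.comp (ContinuousLinearMap.id ℂ F + B) =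
      (algebraMap ℂ (F →L[ℂ] F) c) * (L * (ContinuousLinearMap.id ℂ F + B)) := by
    rw [← Algebra.smul_def]; rfl
  rw [h7]
  exact ((isUnit_iff_ne_zero.2 hc).map _).mul (hL.mul h6)

end C9

open C9 in
/-- C9 (uses A14, C2, C3, C8) -/
theorem spray_merge (F : Type) [NormedAddCommGroup F] [NormedSpace ℂ F] [FiniteDimensional ℂ F]
    {Y : Type u} [MetricSpace Y] [ChartedSpace F Y] [IsManifold 𝓘(ℂ, F) 1 Y]
    {E : Type} [NormedAddCommGroup E] [NormedSpace ℂ E] [FiniteDimensional ℂ E]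
    (f : E → Y) (U : Set E) (hU : IsOpen U)
    (hf : MDifferentiableOn 𝓘(ℂ, E) 𝓘(ℂ, F) f U) (X : Set E) (hX : IsCompact X)
    (hXc : Convex ℝ X) (hXU : X ⊆ U) (m : E →L[ℝ] ℝ) (t : ℝ)
    (h₁ : HasSpray F f (X ∩ {z | m z ≤ t})) (h₂ : HasSpray F f (X ∩ {z | t ≤ m z})) :
    HasSpray F f X := by
  classical
  have : ProperSpace E := FiniteDimensional.proper ℂ E
  obtain ⟨U₁, r₁, s₁, Θ₁, N₁, hU₁, hX₁, hr₁, hs₁, hc₁, hN₁, hΘ₁, h1a, h1b, h1c⟩ := h₁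
  obtain ⟨U₂, r₂, s₂, Θ₂, N₂, hU₂, hX₂, hr₂, hs₂, hc₂, hN₂, hΘ₂, h2a, h2b, h2c⟩ := h₂
  have hmc : Continuous m := m.continuous
  -- the slice and its neighbourhoods
  set S : Set E := X ∩ {z | m z = t} with hSdef
  have hS : IsCompact S := hX.inter_right (isClosed_eq hmc continuous_const)
  have hSc : Convex ℝ S := by
    refine hXc.inter ?_
    have : {z : E | m z = t} = m ⁻¹' {t} := rfl
    rw [this]
    exact (convex_singleton t).linear_preimage (m : E →ₗ[ℝ] ℝ)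
  have hSU : S ⊆ U₁ ∩ U₂ := fun z hz => ⟨hX₁ ⟨hz.1, le_of_eq hz.2⟩, hX₂ ⟨hz.1, ge_of_eq hz.2⟩⟩
  obtain ⟨θ, hθ, hθU⟩ := hS.exists_cthickening_subset_open (hU₁.inter hU₂) hSU
  set K : Set E := cthickening θ S with hKdef
  set W : Set E := thickening θ S with hWdef
  have hK : IsCompact K := hS.cthickening
  have hKc : Convex ℝ K := hSc.cthickening _
  have hW : IsOpen W := isOpen_thickening
  have hSW : S ⊆ W := self_subset_thickening hθ S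
  have hWK : W ⊆ K := thickening_subset_cthickening θ S
  -- the transition maps
  obtain ⟨D, hDdef, hD, hκ, hDz⟩ := transition hU₁ hU₂ hr₁ hr₂ hs₁ hc₁ hc₂ hN₂ h2a h2b h2c
  obtain ⟨D', hDdef', hD', hκ', hDz'⟩ := transition hU₂ hU₁ hr₂ hr₁ hs₂ hc₂ hc₁ hN₁ h1a h1b h1c
  set κ : E × F → F := fun x => Θ₂ (x.1, s₁ x) with hκdef
  set κ' : E × F → F := fun x => Θ₁ (x.1, s₂ x) with hκdef'
  have hcomp : ∀ z t, (z, t) ∈ D → κ' (z, κ (z, t)) = t := by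
    intro z t hzt
    rw [hDdef] at hzt
    have e1 : s₂ (z, κ (z, t)) = s₁ (z, t) := (h2b z _ hzt.2).2.2
    show Θ₁ (z, s₂ (z, κ (z, t))) = t
    rw [e1]
    exact (h1a z hzt.1.1 t hzt.1.2).2
  have hcomp' : ∀ z t, (z, t) ∈ D' → κ (z, κ' (z, t)) = t := by
    intro z t hzt
    rw [hDdef'] at hzt
    have e1 : s₁ (z, κ' (z, t)) = s₂ (z, t) := (h1b z _ hzt.2).2.2
    show Θ₂ (z, s₁ (z, κ' (z, t))) = t
    rw [e1]
    exact (h2a z hzt.1.1 t hzt.1.2).2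
  set T : E → F →L[ℂ] F := fun z => (fderiv ℂ κ (z, 0)).comp (ContinuousLinearMap.inr ℂ E F)
    with hTdef
  set T' : E → F →L[ℂ] F := fun z => (fderiv ℂ κ' (z, 0)).comp (ContinuousLinearMap.inr ℂ E F)
    with hTdef'
  have hT'T : ∀ z ∈ U₁ ∩ U₂, T' z * T z = 1 := fun z hz =>
    slice_comp hD hD' hκ hκ' (hDz z hz).1 (hDz' z hz.symm).1 (hDz z hz).2 (hcomp z)
  have hTT' : ∀ z ∈ U₁ ∩ U₂, T z * T' z = 1 := fun z hz =>
    slice_comp hD' hD hκ' hκ (hDz' z hz.symm).1 (hDz z hz).1 (hDz' z hz.symm).2 (hcomp' z)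
  have hfκ : DifferentiableOn ℂ (fderiv ℂ κ) D := differentiableOn_fderiv hD hκ
  have hfκ' : DifferentiableOn ℂ (fderiv ℂ κ') D' := differentiableOn_fderiv hD' hκ'
  have hemb : Differentiable ℂ (fun z : E => (z, (0 : F))) :=
    differentiable_id.prodMk (differentiable_const _)
  have hTd : DifferentiableOn ℂ T (U₁ ∩ U₂) :=
    (hfκ.comp hemb.differentiableOn (fun z hz => (hDz z hz).1)).clm_comp
      (differentiableOn_const _)
  have hTd' : DifferentiableOn ℂ T' (U₁ ∩ U₂) :=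
    (hfκ'.comp hemb.differentiableOn (fun z hz => (hDz' z hz.symm).1)).clm_comp
      (differentiableOn_const _)
  have hunit : ∀ z ∈ U₁ ∩ U₂, IsUnit (T' z) := fun z hz =>
    ⟨⟨T' z, T z, hT'T z hz, hTT' z hz⟩, rfl⟩
  obtain ⟨CT, hCT⟩ := hK.exists_bound_of_continuousOn (hTd.continuousOn.mono hθU)
  -- the nonlinear splitting
  obtain ⟨A, B, hA, hB, hXA, hXB, hAB, hns⟩ := ns_convex (F := F) X hX hXc m t W hW hSW
  obtain ⟨δ, hδ, hη⟩ := hns (1 / 8) (by norm_num)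
  -- approximation of the derivative of the transition map
  have hCT0 : 0 < |CT| + 1 := by positivity
  obtain ⟨h, hh, hhu, Wh, hWh, hKWh, hhT⟩ := gl_runge F K hK hKc (U₁ ∩ U₂) (hU₁.inter hU₂) hθU T'
    hTd' hunit (δ / (2 * (|CT| + 1))) (by positivity)
  have hclose : ∀ z ∈ K, ‖h z * T z - 1‖ < δ := by
    intro z hz
    have e1 : h z * T z - 1 = (h z - T' z) * T z := by
      rw [sub_mul, hT'T z (hθU hz)]
    rw [e1]
    have e2 := hhT z (hKWh hz)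
    have e3 : ‖T z‖ ≤ |CT| + 1 := (hCT z hz).trans ((le_abs_self CT).trans (by linarith))
    calc ‖(h z - T' z) * T z‖ ≤ ‖h z - T' z‖ * ‖T z‖ := norm_mul_le _ _
      _ ≤ (δ / (2 * (|CT| + 1))) * (|CT| + 1) := by gcongr
      _ = δ / 2 := by field_simp
      _ < δ := by linarith
  -- the inverse of `h`
  set hi : E → F →L[ℂ] F := fun z => Ring.inverse (h z) with hhidef
  have hhi : Differentiable ℂ hi := hh.inverse hhu
  have hih : ∀ z, hi z * h z = 1 := fun z => Ring.inverse_mul_cancel _ (hhu z)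
  have hhiu : ∀ z, IsUnit (hi z) := fun z =>
    ⟨⟨hi z, h z, hih z, Ring.mul_inverse_cancel _ (hhu z)⟩, rfl⟩
  obtain ⟨Ch0, hCh0⟩ := hX.exists_bound_of_continuousOn hhi.continuous.continuousOn
  set Ch : ℝ := |Ch0| + 1 with hChdef
  have hCh : 0 < Ch := by positivity
  have hXCh : ∀ z ∈ X, ‖hi z‖ < Ch := fun z hz =>
    lt_of_le_of_lt ((hCh0 z hz).trans (le_abs_self Ch0)) (by linarith)
  obtain ⟨r₀, hr₀, hsmall⟩ := eta_small hD hκ hfκ.continuousOn hK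
    (fun z hz => hDz z (hθU hz)) hh.continuous hδ hclose
  obtain ⟨r, hr, hrr₀, hrr₁, hrr₂⟩ : ∃ r : ℝ, 0 < r ∧ r ≤ r₀ ∧ r ≤ r₁ ∧ r * Ch ≤ r₂ := by
    refine ⟨min r₀ (min r₁ (r₂ / Ch)), by positivity, min_le_left _ _,
      (min_le_right _ _).trans (min_le_left _ _), ?_⟩
    have : min r₀ (min r₁ (r₂ / Ch)) ≤ r₂ / Ch := (min_le_right _ _).trans (min_le_right _ _)
    calc min r₀ (min r₁ (r₂ / Ch)) * Ch ≤ (r₂ / Ch) * Ch := by gcongr
      _ = r₂ := by field_simp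
  have hr0 : (r : ℂ) ≠ 0 := Complex.ofReal_ne_zero.2 hr.ne'
  have hnr : ‖(r : ℂ)‖ = r := by rw [Complex.norm_real, Real.norm_of_nonneg hr.le]
  set η : E × F → F := fun x => (r : ℂ)⁻¹ • h x.1 (κ (x.1, (r : ℂ) • x.2)) - x.2 with hηdef
  have hηHB : HB W (ball (0 : F) 1) δ η := by
    refine ⟨?_, fun x hx => (hsmall r hr hrr₀ x.1 (hWK hx.1) x.2 hx.2).2⟩
    have e1 : DifferentiableOn ℂ (fun x : E × F => κ (x.1, (r : ℂ) • x.2)) (W ×ˢ ball (0 : F) 1) :=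
      hκ.comp (differentiable_fst.prodMk (differentiable_snd.const_smul _)).differentiableOn
        (fun x hx => (hsmall r hr hrr₀ x.1 (hWK hx.1) x.2 hx.2).1)
    have e2 : DifferentiableOn ℂ (fun x : E × F => h x.1) (W ×ˢ ball (0 : F) 1) :=
      (hh.comp differentiable_fst).differentiableOn
    exact ((e2.clm_apply e1).const_smul _).sub differentiable_snd.differentiableOn
  obtain ⟨a, b, ha, hb, hab, hzero⟩ := hη η hηHB
  obtain ⟨ha0, hb0⟩ := hzero (by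
    intro z hz
    show (r : ℂ)⁻¹ • h z (κ (z, (r : ℂ) • (0 : F))) - 0 = 0
    have e1 : κ (z, 0) = 0 := (hDz z (hθU (hWK hz))).2
    rw [smul_zero, e1]
    simp)
  -- the new spray
  set V₁ : Set E := A ∩ U₁ with hV₁def
  set V₂ : Set E := (B ∩ U₂) ∩ {z | ‖hi z‖ < Ch} with hV₂def
  have hV₁ : IsOpen V₁ := hA.inter hU₁
  have hV₂ : IsOpen V₂ := (hB.inter hU₂).inter (isOpen_lt hhi.continuous.norm continuous_const)
  have hball : IsOpen (ball (0 : F) (1 / 2)) := isOpen_ball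
  set τ₁ : E × F → F := fun x => (r : ℂ) • (x.2 + a x) with hτ₁def
  set τ₂ : E × F → F := fun x => (r : ℂ) • hi x.1 (x.2 + b x) with hτ₂def
  have hτ₁ : DifferentiableOn ℂ τ₁ (V₁ ×ˢ ball (0 : F) (1 / 2)) :=
    ((differentiable_snd.differentiableOn.add
      (ha.1.mono (prod_mono inter_subset_left subset_rfl))).const_smul _)
  have hτ₂ : DifferentiableOn ℂ τ₂ (V₂ ×ˢ ball (0 : F) (1 / 2)) := by
    have e1 : DifferentiableOn ℂ (fun x : E × F => hi x.1) (V₂ ×ˢ ball (0 : F) (1 / 2)) :=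
      (hhi.comp differentiable_fst).differentiableOn
    exact (e1.clm_apply (differentiable_snd.differentiableOn.add
      (hb.1.mono (prod_mono (fun z hz => hz.1.1) subset_rfl)))).const_smul _
  have hna : ∀ x ∈ V₁ ×ˢ ball (0 : F) (1 / 2), ‖x.2 + a x‖ < 1 := by
    intro x hx
    have e1 := ha.2 x ⟨hx.1.1, hx.2⟩
    have e2 := mem_ball_zero_iff.1 hx.2
    have := norm_add_le x.2 (a x)
    linarith
  have hnb : ∀ x ∈ V₂ ×ˢ ball (0 : F) (1 / 2), ‖x.2 + b x‖ < 1 := by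
    intro x hx
    have e1 := hb.2 x ⟨hx.1.1.1, hx.2⟩
    have e2 := mem_ball_zero_iff.1 hx.2
    have := norm_add_le x.2 (b x)
    linarith
  have hm₁ : ∀ x ∈ V₁ ×ˢ ball (0 : F) (1 / 2), τ₁ x ∈ ball (0 : F) r₁ := by
    intro x hx
    rw [mem_ball_zero_iff, hτ₁def]
    simp only []
    rw [norm_smul, hnr]
    have := hna x hx
    calc r * ‖x.2 + a x‖ < r * 1 := by gcongr
      _ ≤ r₁ := by linarith
  have hm₂ : ∀ x ∈ V₂ ×ˢ ball (0 : F) (1 / 2), τ₂ x ∈ ball (0 : F) r₂ := by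
    intro x hx
    rw [mem_ball_zero_iff, hτ₂def]
    simp only []
    rw [norm_smul, hnr]
    have e1 := hnb x hx
    have e2 : ‖hi x.1‖ < Ch := hx.1.2
    have e3 : ‖hi x.1 (x.2 + b x)‖ ≤ ‖hi x.1‖ * ‖x.2 + b x‖ := (hi x.1).le_opNorm _
    have e4 : ‖hi x.1‖ * ‖x.2 + b x‖ < Ch := by
      rcases (norm_nonneg (x.2 + b x)).eq_or_lt with h0 | h0
      · rw [← h0, mul_zero]; exact hCh
      · calc ‖hi x.1‖ * ‖x.2 + b x‖ ≤ Ch * ‖x.2 + b x‖ := by gcongr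
          _ < Ch * 1 := by gcongr
          _ = Ch := mul_one _
    calc r * ‖hi x.1 (x.2 + b x)‖ < r * Ch := by
          have := lt_of_le_of_lt e3 e4
          gcongr
      _ ≤ r₂ := hrr₂
  set σ₁ : E × F → Y := fun x => s₁ (x.1, τ₁ x) with hσ₁def
  set σ₂ : E × F → Y := fun x => s₂ (x.1, τ₂ x) with hσ₂def
  have hσ₁ : MDifferentiableOn 𝓘(ℂ, E × F) 𝓘(ℂ, F) σ₁ (V₁ ×ˢ ball (0 : F) (1 / 2)) := by
    refine hs₁.comp (f := fun x : E × F => (x.1, τ₁ x)) ?_ (fun x hx => ⟨hx.1.2, hm₁ x hx⟩)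
    exact (differentiable_fst.differentiableOn.prodMk hτ₁).mdifferentiableOn
  have hσ₂ : MDifferentiableOn 𝓘(ℂ, E × F) 𝓘(ℂ, F) σ₂ (V₂ ×ˢ ball (0 : F) (1 / 2)) := by
    refine hs₂.comp (f := fun x : E × F => (x.1, τ₂ x)) ?_ (fun x hx => ⟨hx.1.1.2, hm₂ x hx⟩)
    exact (differentiable_fst.differentiableOn.prodMk hτ₂).mdifferentiableOn
  have hagree : ∀ x : E × F, x.1 ∈ V₁ → x.1 ∈ V₂ → x.2 ∈ ball (0 : F) (1 / 2) → σ₁ x = σ₂ x := by
    rintro ⟨z, u⟩ hz1 hz2 hu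
    have hzW : z ∈ W := hAB ⟨hz1.1, hz2.1.1⟩
    have hlt : u + a (z, u) ∈ ball (0 : F) 1 := by
      rw [mem_ball_zero_iff]
      exact hna (z, u) ⟨hz1, hu⟩
    obtain ⟨hmemD, -⟩ := hsmall r hr hrr₀ z (hWK hzW) _ hlt
    have e1 : s₂ (z, κ (z, (r : ℂ) • (u + a (z, u)))) = s₁ (z, (r : ℂ) • (u + a (z, u))) := by
      rw [hDdef] at hmemD
      exact (h2b z _ hmemD.2).2.2
    have e2 : κ (z, (r : ℂ) • (u + a (z, u))) = τ₂ (z, u) := by
      have e3 := hab z ⟨hz1.1, hz2.1.1⟩ u hu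
      have e4 : u + b (z, u) = (r : ℂ)⁻¹ • h z (κ (z, (r : ℂ) • (u + a (z, u)))) := by
        rw [e3]
        simp only [hηdef]
        abel
      show _ = (r : ℂ) • hi z (u + b (z, u))
      rw [e4, map_smul, smul_smul, mul_inv_cancel₀ hr0, one_smul]
      have e5 : hi z (h z (κ (z, (r : ℂ) • (u + a (z, u))))) =
          (hi z * h z) (κ (z, (r : ℂ) • (u + a (z, u)))) := rfl
      rw [e5, hih z]
      rfl
    show s₁ (z, (r : ℂ) • (u + a (z, u))) = s₂ (z, τ₂ (z, u))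
    rw [← e2, e1]
  set s : E × F → Y := fun x => if x.1 ∈ V₁ then σ₁ x else σ₂ x with hsdef
  have hs1 : ∀ x ∈ V₁ ×ˢ ball (0 : F) (1 / 2), s x = σ₁ x := by
    intro x hx
    simp only [hsdef]
    rw [if_pos hx.1]
  have hs2 : ∀ x ∈ V₂ ×ˢ ball (0 : F) (1 / 2), s x = σ₂ x := by
    intro x hx
    simp only [hsdef]
    by_cases h : x.1 ∈ V₁
    · rw [if_pos h]
      exact hagree x h hx.1 hx.2
    · rw [if_neg h]
  have hop1 : IsOpen (V₁ ×ˢ ball (0 : F) (1 / 2)) := hV₁.prod isOpen_ball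
  have hop2 : IsOpen (V₂ ×ˢ ball (0 : F) (1 / 2)) := hV₂.prod isOpen_ball
  refine hasSpray_of_etale F f X hX (V₁ ∪ V₂) (1 / 2) (hV₁.union hV₂) ?_ (by norm_num) s ?_ ?_ ?_
  · intro z hz
    rcases le_total (m z) t with hle | hle
    · exact Or.inl ⟨hXA ⟨hz, hle⟩, hX₁ ⟨hz, hle⟩⟩
    · exact Or.inr ⟨⟨hXB ⟨hz, hle⟩, hX₂ ⟨hz, hle⟩⟩, hXCh z hz⟩
  · rintro x ⟨hx1 | hx1, hx2⟩
    · have e1 : MDifferentiableAt 𝓘(ℂ, E × F) 𝓘(ℂ, F) σ₁ x :=
        (hσ₁ x ⟨hx1, hx2⟩).mdifferentiableAt (hop1.mem_nhds ⟨hx1, hx2⟩)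
      refine (e1.congr_of_eventuallyEq ?_).mdifferentiableWithinAt
      filter_upwards [hop1.mem_nhds ⟨hx1, hx2⟩] with y hy
      exact hs1 y hy
    · have e1 : MDifferentiableAt 𝓘(ℂ, E × F) 𝓘(ℂ, F) σ₂ x :=
        (hσ₂ x ⟨hx1, hx2⟩).mdifferentiableAt (hop2.mem_nhds ⟨hx1, hx2⟩)
      refine (e1.congr_of_eventuallyEq ?_).mdifferentiableWithinAt
      filter_upwards [hop2.mem_nhds ⟨hx1, hx2⟩] with y hy
      exact hs2 y hy
  · have h0 : (0 : F) ∈ ball (0 : F) (1 / 2) := mem_ball_self (by norm_num)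
    rintro z (hz | hz)
    · rw [hs1 (z, 0) ⟨hz, h0⟩]
      show s₁ (z, (r : ℂ) • ((0 : F) + a (z, 0))) = f z
      rw [ha0 z hz.1, add_zero, smul_zero]
      exact hc₁ z hz.2
    · rw [hs2 (z, 0) ⟨hz, h0⟩]
      show s₂ (z, (r : ℂ) • hi z ((0 : F) + b (z, 0))) = f z
      rw [hb0 z hz.1.1, add_zero, map_zero, smul_zero]
      exact hc₂ z hz.1.2
  · have h0 : (0 : F) ∈ ball (0 : F) (1 / 2) := mem_ball_self (by norm_num)
    intro z hz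
    rcases le_total (m z) t with hle | hle
    · have hz1 : z ∈ V₁ := ⟨hXA ⟨hz, hle⟩, hX₁ ⟨hz, hle⟩⟩
      have e0 : τ₁ (z, 0) = 0 := by
        show (r : ℂ) • ((0 : F) + a (z, 0)) = 0
        rw [ha0 z hz1.1, add_zero, smul_zero]
      have e1 : EtaleAt F s₁ (z, τ₁ (z, 0)) := by
        rw [e0]
        exact ⟨U₁ ×ˢ ball 0 r₁, N₁, Θ₁, hU₁.prod isOpen_ball, ⟨hz1.2, mem_ball_self hr₁⟩, hN₁, hΘ₁,
          fun z t hzt => h1a z hzt.1 t hzt.2,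
          fun z y hzy => ⟨⟨(h1b z y hzy).1, (h1b z y hzy).2.1⟩, (h1b z y hzy).2.2⟩, h1c⟩
      have e2 : EtaleAt F (fun x => s₁ (x.1, τ₁ x)) (z, 0) := by
        refine EtaleAt.reparam F τ₁ e1 _ hop1 ⟨hz1, h0⟩ hτ₁ ?_
        have := bij_fderiv hA ha hz1.1 (1 : F →L[ℂ] F) isUnit_one (r : ℂ) hr0
        simpa [hτ₁def] using this
      exact etaleAt_congr e2 _ hop1 ⟨hz1, h0⟩ hs1
    · have hz2 : z ∈ V₂ := ⟨⟨hXB ⟨hz, hle⟩, hX₂ ⟨hz, hle⟩⟩, hXCh z hz⟩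
      have e0 : τ₂ (z, 0) = 0 := by
        show (r : ℂ) • hi z ((0 : F) + b (z, 0)) = 0
        rw [hb0 z hz2.1.1, add_zero, map_zero, smul_zero]
      have e1 : EtaleAt F s₂ (z, τ₂ (z, 0)) := by
        rw [e0]
        exact ⟨U₂ ×ˢ ball 0 r₂, N₂, Θ₂, hU₂.prod isOpen_ball, ⟨hz2.1.2, mem_ball_self hr₂⟩, hN₂, hΘ₂,
          fun z t hzt => h2a z hzt.1 t hzt.2,
          fun z y hzy => ⟨⟨(h2b z y hzy).1, (h2b z y hzy).2.1⟩, (h2b z y hzy).2.2⟩, h2c⟩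
      have e2 : EtaleAt F (fun x => s₂ (x.1, τ₂ x)) (z, 0) := by
        refine EtaleAt.reparam F τ₂ e1 _ hop2 ⟨hz2, h0⟩ hτ₂ ?_
        exact bij_fderiv hB hb hz2.1.1 (hi z) (hhiu z) (r : ℂ) hr0
      exact etaleAt_congr e2 _ hop2 ⟨hz2, h0⟩ hs2


end Pool.Agent.Helper81.OKA
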